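import Pool.Agent.Helper92.RECT.Goals5
import Pool.Agent.Helper15.OHS.LSW

/-!
# The process of a slab is computed in linear space
-/

set_option linter.unusedSectionVars false

namespace Pool.Agent.Helper92.RECT

open Pool.Agent.Helper65.LinSpace Pool.Agent.Helper78.Mpc Pool.Agent.Helper28.Ram Finset
open Pool.Agent.Helper65.OH (Prm)
open Pool.Agent.Helper54.OH (PF LS_accN LS_tab)
open Pool.Agent.Helper81.Sus2 (LSP)
open Pool.Agent.Helper81.Sus2H56 (lsp_comp)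
open Pool.Agent.Helper15.OHS (ls_cs ls_cn ls_cellN)
open Pool.Agent.Helper28.OHS (cellN cs cn)

/-- A family of parameters and data of slabs which are computed in linear space. -/
structure TS {α : Type} [Ctx α] (s : α → Sp) (C : α → ℕ) : Prop where
  b : LSb s C
  Ph : LS (fun z => (s z).Ph)
  W : LS (fun z => (s z).W)
  n : LS (fun z => (s z).n)
  L : LS (fun z => (s z).L)
  R : LS (fun z => (s z).R)
  c : LS (fun z => (s z).c)
  f : LS (fun z => (s z).f)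
  al : LS (fun z => (s z).al)

section

variable {α β : Type} [Ctx α] [Ctx β] {s : α → Sp} {C : α → ℕ}

theorem TS.comp (h : TS s C) {π : β → α} (hπ : LS π) :
    TS (fun b => s (π b)) (fun b => C (π b)) where
  b :=
    { m := h.b.m.comp hπ
      G := h.b.G.comp hπ
      e := lsp_comp h.b.e hπ
      ν := LS.comp (g := fun z => (s z).ν) h.b.ν hπ
      te := LS.comp (g := fun z => (s z).te) h.b.te hπ
      π := LS.comp (g := fun z => (s z).π) h.b.π hπ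
      S := fun b => h.b.S (π b)
      D := fun b => h.b.D (π b)
      pos := fun b => h.b.pos (π b)
      κ := fun b => h.b.κ (π b)
      d1 := fun b => h.b.d1 (π b)
      nm := fun b => h.b.nm (π b)
      hθ := fun b => h.b.hθ (π b)
      hπ := fun b => h.b.hπ (π b) }
  Ph := LS.comp (g := fun z => (s z).Ph) h.Ph hπ
  W := LS.comp (g := fun z => (s z).W) h.W hπ
  n := LS.comp (g := fun z => (s z).n) h.n hπ
  L := LS.comp (g := fun z => (s z).L) h.L hπ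
  R := LS.comp (g := fun z => (s z).R) h.R hπ
  c := LS.comp (g := fun z => (s z).c) h.c hπ
  f := LS.comp (g := fun z => (s z).f) h.f hπ
  al := LS.comp (g := fun z => (s z).al) h.al hπ

namespace TS

variable (h : TS s C)
include h

/-! ### Powers -/

theorem pπ0 : LS (fun z => 2 ^ (s z).π) :=
  LS.pow_of_le (f := fun _ => 2) (LS.const 2) h.b.π h.b.m.hC fun z =>
    (Nat.pow_le_pow_right (by norm_num) (Nat.le_succ _)).trans (h.b.hπ z)

theorem pte : LS (fun z => 2 ^ (s z).te) :=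
  LS.pow_of_le (f := fun _ => 2) (LS.const 2) h.b.te h.b.m.hC fun z =>
    (Nat.pow_le_pow_right (by norm_num) (by unfold Sp.θ; omega)).trans (h.b.hθ z)

theorem pν : LS (fun z => 2 ^ (s z).ν) :=
  LS.pow_of_le (f := fun _ => 2) (LS.const 2) h.b.ν h.b.m.hC fun z =>
    (Nat.pow_le_pow_right (by norm_num) (by unfold Sp.θ; omega)).trans (h.b.hθ z)

theorem ls_θ : LS (fun z => (s z).θ) :=
  LS.add (LS.add h.b.m.S (LS.const 1)) (LS.add (LS.add (LS.const 3)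
    (LS.mul (LS.const 2) h.b.ν)) h.b.te)

theorem pθ : LS (fun z => 2 ^ (s z).θ) :=
  LS.pow_of_le (f := fun _ => 2) (LS.const 2) h.ls_θ h.b.m.hC fun z =>
    (Nat.pow_le_pow_right (by norm_num) (Nat.le_add_right _ _)).trans (h.b.hθ z)

variable {u md i j t p q v w g k : α → ℕ}

/-! ### Global and local cells -/

theorem ls_oA (hk : LS k) : LS (fun z => (s z).oA (k z)) :=
  LS.ifz hk (LS.add h.pπ0 h.b.m.pκ') h.b.m.pκ'

theorem ls_oB (hk : LS k) : LS (fun z => (s z).oB (k z)) :=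
  LS.ifz hk (LS.add h.Ph h.b.G.pκ') h.b.G.pκ'

theorem ls_gc (hu : LS u) (hk : LS k) : LS (fun z => (s z).gc (u z) (k z)) :=
  LS.sub (LS.add hu (h.ls_oB hk)) (h.ls_oA hk)

theorem ls_gv (hu : LS u) (hk : LS k) : LS (fun z => (s z).gv (u z) (k z)) :=
  LS.mul (LS.le01 (h.ls_oA hk) (LS.add hu (h.ls_oB hk))) (LS.lt01 (h.ls_gc hu hk) h.b.G.pκ)

theorem ls_gC (hp : LS p) : LS (fun z => (s z).gC (p z)) := by
  have p1 : LS (fun x : α × ℕ => x.1) := LS.fst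
  have h1 := h.comp (π := fun x : α × ℕ => x.1) p1
  have hp1 : LS (fun x : α × ℕ => p x.1) := LS.comp (g := p) hp p1
  have h2 : LS (fun x : α × ℕ =>
      (s x.1).gc (dig (2 ^ (s x.1).m.κ) (p x.1) x.2) x.2 % 2 ^ (s x.1).G.κ) :=
    LS.mod (h1.ls_gc (LS.dig h1.b.m.pκ hp1 LS.snd) LS.snd) h1.b.G.pκ
  exact LS_tab (q := fun z => 2 ^ (s z).G.κ) (m := fun z => (s z).m.D)
    (d := fun z k => (s z).gc (dig (2 ^ (s z).m.κ) (p z) k) k % 2 ^ (s z).G.κ) (C := C)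
    (B := fun z => 2 ^ (s z).G.κ) h2 h.b.G.pκ h.b.m.D h.b.m.hC h.b.G.pκ
    (fun z => by positivity) (fun z i _ => (Nat.mod_lt _ (by positivity)).le)
    (fun z => by rw [← h.b.D z]; exact h.b.G.b5 z)

theorem ls_gV (hp : LS p) : LS (fun z => (s z).gV (p z)) := by
  have p1 : LS (fun x : α × ℕ => x.1) := LS.fst
  have h1 := h.comp (π := fun x : α × ℕ => x.1) p1
  have hp1 : LS (fun x : α × ℕ => p x.1) := LS.comp (g := p) hp p1
  have h2 : LS (fun x : α × ℕ =>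
      1 - (s x.1).gv (dig (2 ^ (s x.1).m.κ) (p x.1) x.2) x.2) :=
    LS.sub (LS.const 1) (h1.ls_gv (LS.dig h1.b.m.pκ hp1 LS.snd) LS.snd)
  exact LS.eq01 (LS.sum_le (N := fun z => (s z).m.D) (B := fun _ => 1)
    (f := fun z k => 1 - (s z).gv (dig (2 ^ (s z).m.κ) (p z) k) k) h2 h.b.m.D (LS.const 1)
    (fun z i _ => Nat.sub_le _ _)) (LS.const 0)

theorem ls_lc (hg : LS g) (hk : LS k) : LS (fun z => (s z).lc (g z) (k z)) :=
  LS.sub (LS.add hg (h.ls_oA hk)) (h.ls_oB hk)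

theorem ls_lv (hg : LS g) (hk : LS k) : LS (fun z => (s z).lv (g z) (k z)) :=
  LS.mul (LS.le01 (h.ls_oB hk) (LS.add hg (h.ls_oA hk)))
    (LS.mul (LS.lt01 (h.ls_lc hg hk) h.b.m.pκ) (LS.ifz hk
      (LS.mul (LS.le01 h.b.m.pκ' (h.ls_lc hg hk))
        (LS.lt01 (h.ls_lc hg hk) (LS.add h.b.m.pκ' h.W))) (LS.const 1)))

theorem ls_lC (hp : LS p) : LS (fun z => (s z).lC (p z)) := by
  have p1 : LS (fun x : α × ℕ => x.1) := LS.fst
  have h1 := h.comp (π := fun x : α × ℕ => x.1) p1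
  have hp1 : LS (fun x : α × ℕ => p x.1) := LS.comp (g := p) hp p1
  have h2 : LS (fun x : α × ℕ =>
      (s x.1).lc (dig (2 ^ (s x.1).G.κ) (p x.1) x.2) x.2 % 2 ^ (s x.1).m.κ) :=
    LS.mod (h1.ls_lc (LS.dig h1.b.G.pκ hp1 LS.snd) LS.snd) h1.b.m.pκ
  exact LS_tab (q := fun z => 2 ^ (s z).m.κ) (m := fun z => (s z).m.D)
    (d := fun z k => (s z).lc (dig (2 ^ (s z).G.κ) (p z) k) k % 2 ^ (s z).m.κ) (C := C)
    (B := fun z => 2 ^ (s z).m.κ) h2 h.b.m.pκ h.b.m.D h.b.m.hC h.b.m.pκ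
    (fun z => by positivity) (fun z i _ => (Nat.mod_lt _ (by positivity)).le) h.b.m.b5

theorem ls_lV (hp : LS p) : LS (fun z => (s z).lV (p z)) := by
  have p1 : LS (fun x : α × ℕ => x.1) := LS.fst
  have h1 := h.comp (π := fun x : α × ℕ => x.1) p1
  have hp1 : LS (fun x : α × ℕ => p x.1) := LS.comp (g := p) hp p1
  have h2 : LS (fun x : α × ℕ =>
      1 - (s x.1).lv (dig (2 ^ (s x.1).G.κ) (p x.1) x.2) x.2) :=
    LS.sub (LS.const 1) (h1.ls_lv (LS.dig h1.b.G.pκ hp1 LS.snd) LS.snd)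
  exact LS.eq01 (LS.sum_le (N := fun z => (s z).m.D) (B := fun _ => 1)
    (f := fun z k => 1 - (s z).lv (dig (2 ^ (s z).G.κ) (p z) k) k) h2 h.b.m.D (LS.const 1)
    (fun z i _ => Nat.sub_le _ _)) (LS.const 0)

theorem ls_nm (hp : LS p) : LS (fun z => (s z).nm (p z)) := by
  have p1 : LS (fun x : α × ℕ => x.1) := LS.fst
  have h1 := h.comp (π := fun x : α × ℕ => x.1) p1
  have hp1 : LS (fun x : α × ℕ => p x.1) := LS.comp (g := p) hp p1
  have h2 : LS (fun z => cellN (s z).G.κ (dig (2 ^ (s z).G.κ) (p z)) (s z).G.D) :=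
    ls_cellN h.b.G (fun z => by rw [h.b.D z]; exact h.b.nm z)
      (u := fun z k => dig (2 ^ (s z).G.κ) (p z) k) (LS.dig h1.b.G.pκ hp1 LS.snd)
      (fun z k => (dig_lt (by positivity) _ _).le)
  refine LS.congr h2 fun z => ?_
  rw [h.b.D z]
  rfl

theorem ls_c0 : LS (fun z => (s z).c0) := by
  have h1 : LS (fun x : α × ℕ => 2 ^ ((s x.1).m.κ - 1)) :=
    LS.comp (g := fun z => 2 ^ ((s z).m.κ - 1)) h.b.m.pκ' LS.fst
  exact LS_tab (q := fun z => 2 ^ (s z).m.κ) (m := fun z => (s z).m.D)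
    (d := fun z _ => 2 ^ ((s z).m.κ - 1)) (C := C) (B := fun z => 2 ^ ((s z).m.κ - 1)) h1
    h.b.m.pκ h.b.m.D h.b.m.hC h.b.m.pκ' (fun z => by positivity) (fun z i _ => le_rfl) h.b.m.b5

theorem ls_st0 (hp : LS p) (hu : LS u) : LS (fun z => (s z).st0 (p z) (u z)) :=
  LS.add (LS.sub hp (LS.mod hp h.b.m.pκ)) hu

/-! ### States -/

theorem ls_cod (hu : LS u) (hm : LS md) (hi : LS i) (hj : LS j) (ht : LS t) (hp : LS p) :
    LS (fun z => (s z).cod (u z) (md z) (i z) (j z) (t z) (p z)) :=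
  LS.add (LS.add hu (LS.mul h.b.m.pS (LS.add hm (LS.mul (LS.const 8) (LS.add (LS.mod hi h.pν)
    (LS.mul h.pν (LS.add (LS.mod hj h.pν) (LS.mul h.pν (LS.mod ht h.pte)))))))))
    (LS.mul h.pθ hp)

theorem ls_wq (hq : LS q) : LS (fun z => (s z).wq (q z)) := LS.mod hq h.b.m.pS

theorem ls_md (hq : LS q) : LS (fun z => (s z).md (q z)) :=
  LS.mod (LS.div hq h.b.m.pS) (LS.const 8)

theorem ls_ix (hq : LS q) : LS (fun z => (s z).ix (q z)) :=
  LS.mod (LS.div (LS.div hq h.b.m.pS) (LS.const 8)) h.pν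

theorem ls_jx (hq : LS q) : LS (fun z => (s z).jx (q z)) :=
  LS.mod (LS.div (LS.div (LS.div hq h.b.m.pS) (LS.const 8)) h.pν) h.pν

theorem ls_tx (hq : LS q) : LS (fun z => (s z).tx (q z)) :=
  LS.mod (LS.div (LS.div (LS.div (LS.div hq h.b.m.pS) (LS.const 8)) h.pν) h.pν) h.pte

theorem ls_ce (hq : LS q) : LS (fun z => (s z).ce (q z)) := LS.div hq h.pθ

theorem ls_bq (hq : LS q) : LS (fun z => (s z).bq (q z)) :=
  LS.add (h.ls_wq hq) (LS.mul h.b.m.pS (h.ls_ce hq))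

theorem ls_rcd (hw : LS w) : LS (fun z => (s z).rcd (w z)) :=
  LS.add (LS.mod hw h.b.m.pS)
    (LS.mul h.b.m.pS (h.ls_st0 (LS.div hw h.b.m.pS) (LS.const 0)))

theorem ls_lL (hi : LS i) : LS (fun z => (s z).lL (i z)) := LS.dig h.b.m.psg h.L hi

theorem ls_lR (hi : LS i) : LS (fun z => (s z).lR (i z)) := LS.dig h.b.m.psg h.R hi

theorem ls_fl : LS (fun z => (s z).fl) :=
  h.ls_cod (LS.const 1) (LS.const 0) (LS.const 0) (LS.const 0) (LS.const 0) h.ls_c0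

theorem ls_en (hu : LS u) (hi : LS i) (hj : LS j) (ht : LS t) (hp : LS p) :
    LS (fun z => (s z).en (u z) (i z) (j z) (t z) (p z)) :=
  LS.ifz (LS.mul hu (h.ls_gV hp)) h.ls_fl (h.ls_cod hu (LS.const 1) hi hj ht hp)

theorem ls_inn (hq : LS q) (hw : LS w) : LS (fun z => (s z).inn (q z) (w z)) := by
  have h1 : LS (fun z => w z / 2 ^ ((s z).m.S + 1) % 2 ^ (s z).m.κ) :=
    LS.mod (LS.div hw h.b.m.pS) h.b.m.pκ
  have ht := LS.add (h.ls_tx hq) (LS.const 1)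
  exact LS.ifz (LS.lt01 h1 h.b.m.pκ')
    (LS.ifz (LS.le01 (LS.add h.b.m.pκ' h.W) h1)
      (h.ls_en (LS.mod hw h.b.m.pS) (h.ls_ix hq) (h.ls_jx hq) ht (LS.div hw h.b.m.pS))
      (LS.ifz (LS.eq01 (h.ls_lR (h.ls_jx hq)) (h.ls_rcd hw)) h.ls_fl
        (h.ls_cod (LS.const 1) (LS.const 3) (h.ls_ix hq) (LS.add (h.ls_jx hq) (LS.const 1)) ht
          h.ls_c0)))
    (LS.ifz (LS.eq01 (h.ls_lL (h.ls_ix hq)) (h.ls_rcd hw)) h.ls_fl
      (h.ls_cod (LS.const 1) (LS.const 2) (LS.add (h.ls_ix hq) (LS.const 1)) (h.ls_jx hq) ht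
        h.ls_c0))

theorem ls_stop (hq : LS q) (hv : LS v) :
    LS (fun z => eq01 ((s z).tx (q z)) (s z).n + accN ((s z).wq (q z)) +
      eq01 ((s z).m.ok ((s z).bq (q z)) (v z)) 0) :=
  LS.add (LS.add (LS.eq01 (h.ls_tx hq) h.n) (LS_accN (h.ls_wq hq)))
    (LS.eq01 (h.b.m.ok (h.ls_bq hq) hv) (LS.const 0))

theorem ls_N1 (hq : LS q) (hv : LS v) : LS (fun z => (s z).N1 (q z) (v z)) :=
  LS.ifz (h.ls_stop hq hv) (h.ls_inn hq (h.b.m.sq (h.ls_bq hq) hv)) h.ls_fl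

theorem ls_N2 (hq : LS q) : LS (fun z => (s z).N2 (q z)) := by
  have h1 := h.ls_lL (h.ls_ix hq)
  exact h.ls_en (LS.mod h1 h.b.m.pS) (LS.add (h.ls_ix hq) (LS.const 1)) (h.ls_jx hq)
    (h.ls_tx hq) (h.ls_st0 (LS.div h1 h.b.m.pS) h.b.m.pκ')

theorem ls_N3 (hq : LS q) : LS (fun z => (s z).N3 (q z)) := by
  have h1 := h.ls_lR (h.ls_jx hq)
  exact h.ls_en (LS.mod h1 h.b.m.pS) (h.ls_ix hq) (LS.add (h.ls_jx hq) (LS.const 1))
    (h.ls_tx hq) (h.ls_st0 (LS.div h1 h.b.m.pS) (LS.sub (LS.add h.b.m.pκ' h.W) (LS.const 1)))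

theorem ls_N (hq : LS q) (hv : LS v) : LS (fun z => (s z).N (q z) (v z)) := by
  have hm := h.ls_md hq
  exact LS.ifz (LS.eq01 hm (LS.const 1)) (LS.ifz (LS.eq01 hm (LS.const 2))
    (LS.ifz (LS.eq01 hm (LS.const 3)) h.ls_fl (h.ls_N3 hq)) (h.ls_N2 hq)) (h.ls_N1 hq hv)

theorem ls_Wr (hq : LS q) (hv : LS v) : LS (fun z => (s z).Wr (q z) (v z)) :=
  LS.ifz (LS.eq01 (h.ls_md hq) (LS.const 1)) hv
    (LS.ifz (h.ls_stop hq hv) (h.b.m.nw (h.ls_bq hq) hv) hv)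

theorem ls_fin (hq : LS q) : LS (fun z => (s z).fin (q z)) :=
  LS.ifz (h.ls_md hq) (LS.const 1) (LS.mul (LS.eq01 (h.ls_tx hq) h.n)
    (LS.eq01 (LS.add (h.ls_lL (h.ls_ix hq)) (h.ls_lR (h.ls_jx hq))) (LS.const 0)))

theorem ls_sc (hq : LS q) : LS (fun z => (s z).sc (q z)) :=
  LS.ifz (LS.eq01 (h.ls_md hq) (LS.const 1)) (LS.const 1)
    (LS.ifz h.f (LS_accN (h.ls_wq hq))
      (LS.eq01 (LS.add (h.ls_wq hq) (LS.mul h.b.m.pS (h.ls_gC (h.ls_ce hq))))
        (ls_cs h.b.G h.f)))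

theorem ls_fc (hq : LS q) (hv : LS v) : LS (fun z => (s z).fc (q z) (v z)) :=
  LS.ifz (h.ls_md hq) (LS.const 0) (LS.mul (h.ls_sc hq)
    (LS.ifz (LS.mul h.f (h.ls_lV h.al)) (LS.const 1)
      (LS.eq01 hv (ls_cn h.b.G h.b.e h.f (h.ls_nm h.al)))))

theorem ls_hp : LS (fun z => (s z).hp) := LS.div (ls_cs h.b.G h.c) h.b.m.pS

theorem ls_lft : LS (fun z => (s z).lft) :=
  LS.lt01 (LS.add (LS.dig h.b.G.pκ h.ls_hp (LS.const 0)) h.pπ0) (LS.add h.Ph h.b.G.pκ')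

theorem ls_rgt : LS (fun z => (s z).rgt) :=
  LS.le01 (LS.add (LS.add h.Ph h.b.G.pκ') h.W)
    (LS.add (LS.dig h.b.G.pκ h.ls_hp (LS.const 0)) h.pπ0)

theorem ls_q0 : LS (fun z => (s z).q0) :=
  LS.ifz h.ls_lft (LS.ifz h.ls_rgt (LS.ifz (h.ls_lV h.ls_hp) h.ls_fl
    (h.ls_cod (LS.mod (ls_cs h.b.G h.c) h.b.m.pS) (LS.const 1) (LS.const 0) (LS.const 0)
      (LS.const 0) (h.ls_lC h.ls_hp)))
      (h.ls_cod (LS.const 1) (LS.const 3) (LS.const 0) (LS.const 0) (LS.const 0) h.ls_c0))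
    (h.ls_cod (LS.const 1) (LS.const 2) (LS.const 0) (LS.const 0) (LS.const 0) h.ls_c0)

theorem ls_M0 (hp : LS p) : LS (fun z => (s z).M0 (p z)) :=
  ls_cn h.b.G h.b.e h.c (h.ls_nm (h.ls_gC hp))

end TS

end

/-- **Packet RECT-LSS.** -/
theorem lss (hO : OKS_stmt) : LSS_stmt := by
  intro α _ s C h Ph W n L R c f al d a V Tc o hPh hW hn hL hR hc hf hal hd ha hV hTc ho
    hWκ hVC haC hdC hod hSd hVV
  have h0 : TS (fun z => (s z).put (Ph z) (W z) (n z) (L z) (R z) (c z) (f z) (al z)) C :=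
    { b :=
        { m := h.m
          G := h.G
          e := h.e
          ν := h.ν
          te := h.te
          π := h.π
          S := h.S
          D := h.D
          pos := h.pos
          κ := h.κ
          d1 := h.d1
          nm := h.nm
          hθ := h.hθ
          hπ := h.hπ }
      Ph := hPh
      W := hW
      n := hn
      L := hL
      R := hR
      c := hc
      f := hf
      al := hal }
  have p1 : LS (fun z : α × ℕ => z.1) := LS.fst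
  have p2 : LS (fun z : α × ℕ × ℕ => z.1) := LS.fst
  have h1 := h0.comp (π := fun z : α × ℕ => z.1) p1
  have h2 := h0.comp (π := fun z : α × ℕ × ℕ => z.1) p2
  have q2 : LS (fun z : α × ℕ × ℕ => z.2.1) := by fun_prop
  have v2 : LS (fun z : α × ℕ × ℕ => z.2.2) := by fun_prop
  exact
    { S := h.m.S
      κ := h.m.κ
      D := h.m.D
      θ := h0.ls_θ
      d := hd
      o := ho
      a := ha
      V := hV
      Tc := hTc
      fin := h1.ls_fin LS.snd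
      N := h2.ls_N q2 v2
      W := h2.ls_Wr q2 v2
      q0 := h0.ls_q0
      M0 := h1.ls_M0 LS.snd
      al := h0.ls_lC h0.al
      fc := h2.ls_fc q2 v2
      bd := h.m.hC
      ok := fun z => hO ((s z).put (Ph z) (W z) (n z) (L z) (R z) (c z) (f z) (al z)) (h.pos z)
        (le_trans (by norm_num) (h.κ z)) (h.S z) (hWκ z) (d z) (a z) (V z) (Tc z) (o z) (hod z)
        (hSd z) (hVV z)
      h1 := h.hθ
      h2 := haC
      h3 := h.m.b3
      h4 := h.m.b4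
      h5 := hdC
      h6 := hVC }

end Pool.Agent.Helper92.RECT
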